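import Pool.Agent.H37.HH.Targets4
import Pool.Agent.H3.CV.GC
import Pool.Agent.H96.CV.Basic

/-!
# MP_347b49_nt, row BSM: the mollified central value is small if the central value vanishes
-/

set_option autoImplicit false

open NumberField Complex Filter Topology MeasureTheory
open scoped ContDiff nonZeroDivisors

namespace Pool.Agent.H89.HH

open Pool.Agent.H33.HH Pool.Agent.H28.RC Pool.Agent.H37.CV

section

variable {K : Type} [Field K] [NumberField K]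

theorem psi_le (χ : RCC K) (I : Ideal (𝓞 K)) : ‖χ.ψ I‖ ≤ 1 := by
  by_cases h0 : I = ⊥
  · rw [h0, χ.map_bot, norm_zero]
    exact zero_le_one
  · by_cases h1 : I ⊔ χ.f = ⊤
    · exact (χ.norm_one I h0 h1).le
    · rw [χ.eq_zero I h1, norm_zero]
      exact zero_le_one

theorem idS_inj : Function.Injective (idS : Finset (PrI K) → Ideal (𝓞 K)) := by
  have key : ∀ S T : Finset (PrI K), idS S = idS T → S ⊆ T := by
    intro S T h P hP
    refine Pool.Agent.H3.CV.idS_le ?_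
    rw [← h]
    exact Ideal.dvd_iff_le.1 (Finset.dvd_prod_of_mem _ hP)
  intro S T h
  exact Finset.Subset.antisymm (key S T h) (key T S h.symm)

theorem nS_half_le (S : Finset (PrI K)) : |nS np S ^ (-(1 / 2) : ℝ)| ≤ 1 := by
  have h1 := Pool.Agent.H96.CV.one_le_nS S
  rw [abs_of_nonneg (Real.rpow_nonneg (by linarith) _)]
  exact Real.rpow_le_one_of_one_le_of_nonpos h1 (by norm_num)

/-- the sum over the mollifier -/
theorem moll_le (hCX : T_CX) (C1 : ℝ) (hC1 : ∀ (x : ℝ) (X : Finset (Ideal (𝓞 K))), 1 ≤ x →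
    (∀ I ∈ X, I ≠ ⊥ ∧ nm I ≤ x) → (X.card : ℝ) ≤ C1 * x) (P y : ℝ) (hy : 1 ≤ y) (χ : RCC K) :
    ‖∑ S ∈ DP K P y, ((lm K P y S * nS np S ^ (-(1 / 2) : ℝ) : ℝ) : ℂ) * χ.ψ (idS S)‖ ≤
      C1 * y := by
  classical
  obtain ⟨-, -, h3⟩ := hCX (PrI K) np (AP K P y) y Pool.Agent.H96.CV.two_le_np hy
  have hsub : ∀ S ∈ DP K P y, S ⊆ AP K P y ∧ nS np S ≤ y := by
    intro S hS
    unfold DP DS at hS
    rw [Finset.mem_filter, Finset.mem_powerset] at hS
    exact hS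
  have h4 : ∀ S ∈ DP K P y,
      ‖((lm K P y S * nS np S ^ (-(1 / 2) : ℝ) : ℝ) : ℂ) * χ.ψ (idS S)‖ ≤ 1 := by
    intro S hS
    rw [norm_mul, Complex.norm_real, Real.norm_eq_abs, abs_mul]
    have h5 : |lm K P y S| ≤ 1 := h3 S (hsub S hS).1
    have h6 := nS_half_le S
    have h7 := psi_le χ (idS S)
    calc |lm K P y S| * |nS np S ^ (-(1 / 2) : ℝ)| * ‖χ.ψ (idS S)‖ ≤ 1 * 1 * 1 := by gcongr
      _ = 1 := by norm_num
  calc ‖∑ S ∈ DP K P y, ((lm K P y S * nS np S ^ (-(1 / 2) : ℝ) : ℝ) : ℂ) * χ.ψ (idS S)‖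
      ≤ ∑ S ∈ DP K P y, (1 : ℝ) := norm_sum_le_of_le _ h4
    _ = ((DP K P y).image idS).card := by
      rw [Finset.sum_const, nsmul_eq_mul, mul_one, Finset.card_image_of_injective _ idS_inj]
    _ ≤ C1 * y := by
      refine hC1 y _ hy fun I hI => ?_
      obtain ⟨S, hS, rfl⟩ := Finset.mem_image.1 hI
      refine ⟨Pool.Agent.H3.CV.idS_ne S, ?_⟩
      rw [Pool.Agent.H3.CV.nm_idS]
      exact (hsub S hS).2

theorem one_le_nm (I : Ideal (𝓞 K)) (hI : I ≠ ⊥) : 1 ≤ nm I := by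
  unfold nm
  have h1 : Ideal.absNorm I ≠ 0 := fun h => hI (Ideal.absNorm_eq_zero_iff.1 h)
  exact_mod_cast Nat.one_le_iff_ne_zero.2 h1

end

theorem pf_BSM (hSSM : T_SSM) (hBSG : T_BSG) (hEN : T_EN) (hCX : T_CX) (hDV : T_DV)
    (hNRM : Pool.Agent.H33.HH.T_NRM) : T_BSM := by
  classical
  intro K _ _ _ G hG P κ θ e hκ hθ he
  have hTC : IsTotallyComplex K := (hNRM K).1
  -- the parameter `k`
  obtain ⟨k0, hk0⟩ := exists_nat_ge (2 * (θ + 6 + 3 * e) / e + 2)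
  set k : ℕ := max k0 9 with hk
  have hk9 : 9 ≤ k := le_max_right _ _
  have hkr : 2 * (θ + 6 + 3 * e) / e + 2 ≤ (k : ℝ) :=
    hk0.trans (by exact_mod_cast le_max_left k0 9)
  have hk9' : (9 : ℝ) ≤ k := by exact_mod_cast hk9
  have hke : e * (1 - (k : ℝ) / 2) ≤ -(θ + 6 + 3 * e) := by
    have h1 : 2 * (θ + 6 + 3 * e) / e ≤ (k : ℝ) - 2 := by linarith
    rw [div_le_iff₀ he] at h1
    nlinarith
  obtain ⟨C, hC0, hC⟩ := hSSM K G hG k hk9
  obtain ⟨-, C1, hC1⟩ := hDV K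
  have hC1' : ∀ (x : ℝ) (X : Finset (Ideal (𝓞 K))), 1 ≤ x →
      (∀ I ∈ X, I ≠ ⊥ ∧ nm I ≤ x) → (X.card : ℝ) ≤ C1 * x := fun x X hx hX => (hC1 x X hx hX).1
  have hC10 : 0 ≤ C1 := by
    have := hC1' 1 ∅ le_rfl (by simp)
    simpa using this
  set N0 : ℝ := nS np (SP K P) with hN0
  have hN01 : 1 ≤ N0 := Pool.Agent.H96.CV.one_le_nS _
  have hN0p : 0 < N0 := by linarith
  set M : ℝ := ((SP K P).powerset.card : ℝ) with hM
  have hM0 : 0 ≤ M := Nat.cast_nonneg _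
  set D : ℝ := (κ * N0) ^ (-(1 - (k : ℝ) / 2)) with hD
  have hD0 : 0 ≤ D := Real.rpow_nonneg (by positivity) _
  set C' : ℝ := C1 * (M * (C * κ * D)) with hC'
  have hC'0 : 0 ≤ C' := by positivity
  set Q1 : ℝ := (κ * N0) ^ (1 / e) with hQ1
  refine ⟨max 1 (max Q1 C'), le_max_left _ _, fun Q hQ χ hf hfQ => ?_⟩
  have hQ1' : 1 ≤ Q := (le_max_left _ _).trans hQ
  have hQQ1 : Q1 ≤ Q := ((le_max_left _ _).trans (le_max_right _ _)).trans hQ
  have hQC : C' ≤ Q := ((le_max_right _ _).trans (le_max_right _ _)).trans hQ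
  have hQ0 : 0 < Q := by linarith
  refine ⟨?_, ?_⟩
  · obtain ⟨Z, Λ, ε, hZ, -⟩ := hEN K χ hf
    exact ⟨Z, hZ⟩
  rintro ⟨Z, hZ, hZ0⟩
  have hy1 : 1 ≤ Q ^ θ := Real.one_le_rpow hQ1' hθ.le
  have hZp : 0 < Q ^ (1 + e) := Real.rpow_pos_of_pos hQ0 _
  have hQe : κ * N0 ≤ Q ^ e := by
    have h1 : Q1 ^ e ≤ Q ^ e := Real.rpow_le_rpow (Real.rpow_nonneg (by positivity) _) hQQ1 he.le
    rwa [hQ1, ← Real.rpow_mul (by positivity), one_div_mul_cancel he.ne', Real.rpow_one] at h1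
  have hQ1e : Q ^ (1 + e) = Q * Q ^ e := by
    rw [Real.rpow_add hQ0, Real.rpow_one]
  have hnf := one_le_nm χ.f χ.f_ne
  have hnf0 : 0 < nm χ.f := by linarith
  rw [hBSG K P (Q ^ θ) (Q ^ (1 + e)) G hG hy1 hZp χ.ψ χ.map_mul (psi_le χ) χ.map_one, norm_mul]
  -- the bound for one smooth sum
  have hS : ∀ T ∈ (SP K P).powerset,
      ‖(-1 : ℂ) ^ T.card * ((nS np T ^ (-(1 / 2) : ℝ) : ℝ) : ℂ) * χ.ψ (idS T) *
        SG G (Q ^ (1 + e) / nS np T) (1 / 2) χ.ψ‖ ≤ C * κ * D * Q ^ (-θ - 2) := by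
    intro T hT
    rw [Finset.mem_powerset] at hT
    have hT1 : 1 ≤ nS np T := Pool.Agent.H96.CV.one_le_nS T
    have hT0 : 0 < nS np T := by linarith
    have hTN : nS np T ≤ N0 := by
      have h1 : nS np (SP K P \ T) * nS np T = nS np (SP K P) := Finset.prod_sdiff hT
      rw [hN0, ← h1]
      exact le_mul_of_one_le_left hT0.le (Pool.Agent.H96.CV.one_le_nS _)
    set X : ℝ := Q ^ (1 + e) / nS np T with hX
    have hX0 : 0 < X := by positivity
    have hXlow : κ * Q * (Q ^ e / (κ * N0)) ≤ X := by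
      rw [hX, hQ1e, le_div_iff₀ hT0]
      have h1 : κ * Q * (Q ^ e / (κ * N0)) * N0 = Q * Q ^ e := by
        field_simp
      calc κ * Q * (Q ^ e / (κ * N0)) * nS np T ≤ κ * Q * (Q ^ e / (κ * N0)) * N0 := by
            gcongr
        _ = Q * Q ^ e := h1
    have hr1 : 1 ≤ Q ^ e / (κ * N0) := by
      rw [le_div_iff₀ (by positivity), one_mul]
      exact hQe
    have hXf : nm χ.f ≤ X := by
      refine hfQ.trans (le_trans ?_ hXlow)
      exact le_mul_of_one_le_right (by positivity) hr1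
    have hXQ : X ≤ Q ^ (1 + e) := by
      rw [hX]
      exact div_le_self hZp.le hT1
    have h1 := hC χ hf Z hZ X hXf
    rw [hZ0, sub_zero] at h1
    have h2 : (X / nm χ.f) ^ (1 - (k : ℝ) / 2) ≤ (Q ^ e / (κ * N0)) ^ (1 - (k : ℝ) / 2) := by
      refine Real.rpow_le_rpow_of_nonpos (by positivity) ?_ (by linarith)
      rw [le_div_iff₀ hnf0]
      refine le_trans ?_ hXlow
      rw [mul_comm]
      gcongr
    have h3 : (Q ^ e / (κ * N0)) ^ (1 - (k : ℝ) / 2) = D * Q ^ (e * (1 - (k : ℝ) / 2)) := by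
      rw [Real.div_rpow (by positivity) (by positivity), ← Real.rpow_mul hQ0.le, hD,
        Real.rpow_neg (by positivity)]
      ring
    have h4 : ‖SG G X (1 / 2) χ.ψ‖ ≤ C * κ * D * Q ^ (-θ - 2) := by
      calc ‖SG G X (1 / 2) χ.ψ‖ ≤ C * nm χ.f * X ^ 3 * (X / nm χ.f) ^ (1 - (k : ℝ) / 2) := h1
        _ ≤ C * (κ * Q) * (Q ^ (1 + e)) ^ 3 * (D * Q ^ (e * (1 - (k : ℝ) / 2))) := by
            rw [← h3]
            gcongr
        _ = C * κ * D * (Q ^ (1 : ℝ) * Q ^ ((1 + e) * 3) * Q ^ (e * (1 - (k : ℝ) / 2))) := by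
            have h7 : Q ^ ((1 + e) * 3) = (Q ^ (1 + e)) ^ (3 : ℕ) := by
              rw [Real.rpow_mul hQ0.le, ← Real.rpow_natCast]
              norm_num
            rw [Real.rpow_one, h7]
            ring
        _ = C * κ * D * Q ^ (1 + (1 + e) * 3 + e * (1 - (k : ℝ) / 2)) := by
            rw [Real.rpow_add hQ0, Real.rpow_add hQ0]
        _ ≤ C * κ * D * Q ^ (-θ - 2) := by
            refine mul_le_mul_of_nonneg_left ?_ (by positivity)
            exact Real.rpow_le_rpow_of_exponent_le hQ1' (by linarith)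
    rw [norm_mul, norm_mul, norm_mul, norm_pow, norm_neg, norm_one, one_pow, one_mul,
      Complex.norm_real, Real.norm_eq_abs]
    have h5 := nS_half_le T
    have h6 := psi_le χ (idS T)
    calc |nS np T ^ (-(1 / 2) : ℝ)| * ‖χ.ψ (idS T)‖ * ‖SG G X (1 / 2) χ.ψ‖ ≤
        1 * 1 * (C * κ * D * Q ^ (-θ - 2)) := by gcongr
      _ = C * κ * D * Q ^ (-θ - 2) := by ring
  have hsum : ‖∑ T ∈ (SP K P).powerset, (-1 : ℂ) ^ T.card *
      ((nS np T ^ (-(1 / 2) : ℝ) : ℝ) : ℂ) * χ.ψ (idS T) *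
        SG G (Q ^ (1 + e) / nS np T) (1 / 2) χ.ψ‖ ≤ M * (C * κ * D * Q ^ (-θ - 2)) := by
    refine (norm_sum_le_of_le _ hS).trans (le_of_eq ?_)
    rw [Finset.sum_const, nsmul_eq_mul]
  have hmol := moll_le hCX C1 hC1' P (Q ^ θ) hy1 χ
  calc _ ≤ C1 * Q ^ θ * (M * (C * κ * D * Q ^ (-θ - 2))) :=
        mul_le_mul hmol hsum (norm_nonneg _) (by positivity)
    _ = C' * (Q ^ θ * Q ^ (-θ - 2)) := by rw [hC']; ring
    _ = C' * Q ^ (-2 : ℝ) := by
        rw [← Real.rpow_add hQ0]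
        congr 2
        ring
    _ ≤ Q * Q ^ (-2 : ℝ) := by gcongr
    _ = 1 / Q := by
        rw [Real.rpow_neg hQ0.le]
        norm_num
        field_simp

end Pool.Agent.H89.HH
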