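import Pool.Agent.H33.HH.TC

/-!
# MP_347b49_nt, row GEX: the weight with mean value zero exists
-/

set_option autoImplicit false

open MeasureTheory Set
open scoped ContDiff

namespace Pool.Agent.H89.HH

open Pool.Agent.H33.HH

/-- a continuous function which vanishes beyond `3`, times `u ^ (-1/2)`, is integrable -/
theorem int_half {F : ℝ → ℝ} (hF : Continuous F) (h3 : ∀ u, 3 ≤ u → F u = 0) :
    IntegrableOn (fun u => F u * u ^ (-(1 / 2) : ℝ)) (Ioi (0 : ℝ)) := by
  have h1 : IntervalIntegrable (fun u : ℝ => F u * u ^ (-(1 / 2) : ℝ)) volume 0 3 :=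
    (intervalIntegral.intervalIntegrable_rpow' (by norm_num)).continuousOn_mul hF.continuousOn
  rw [intervalIntegrable_iff_integrableOn_Ioc_of_le (by norm_num)] at h1
  refine h1.of_forall_sdiff_eq_zero measurableSet_Ioi fun u hu => ?_
  have h4 : 3 ≤ u := by
    by_contra hc
    push Not at hc
    exact hu.2 ⟨hu.1, hc.le⟩
  rw [h3 u h4, zero_mul]

theorem pf_GEX : T_GEX := by
  set s := Real.smoothTransition with hs
  have hsc : ContDiff ℝ ∞ s := Real.smoothTransition.contDiff
  set G0 : ℝ → ℝ := fun u => s (2 - u) with hG0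
  set B : ℝ → ℝ := fun u => s (u - 2) * s (3 - u) with hB
  have hG0s : ContDiff ℝ ∞ G0 := hsc.comp (contDiff_const.sub contDiff_id)
  have hBs : ContDiff ℝ ∞ B :=
    (hsc.comp (contDiff_id.sub contDiff_const)).mul (hsc.comp (contDiff_const.sub contDiff_id))
  have hG03 : ∀ u, 3 ≤ u → G0 u = 0 := fun u hu =>
    Real.smoothTransition.zero_of_nonpos (by linarith)
  have hB3 : ∀ u, 3 ≤ u → B u = 0 := fun u hu => by
    rw [hB]
    dsimp only
    rw [hs, Real.smoothTransition.zero_of_nonpos (x := 3 - u) (by linarith), mul_zero]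
  have hB2 : ∀ u, u ≤ 2 → B u = 0 := fun u hu => by
    rw [hB]
    dsimp only
    rw [hs, Real.smoothTransition.zero_of_nonpos (x := u - 2) (by linarith), zero_mul]
  have i0 := int_half hG0s.continuous hG03
  have i1 := int_half hBs.continuous hB3
  set I0 : ℝ := ∫ u in Ioi (0 : ℝ), G0 u * u ^ (-(1 / 2) : ℝ) with hI0
  set I1 : ℝ := ∫ u in Ioi (0 : ℝ), B u * u ^ (-(1 / 2) : ℝ) with hI1
  have hpos : 0 < I1 := by
    rw [hI1, setIntegral_pos_iff_support_of_nonneg_ae _ i1]
    · have h1 : Ioo (2 : ℝ) 3 ⊆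
          Function.support (fun u => B u * u ^ (-(1 / 2) : ℝ)) ∩ Ioi (0 : ℝ) := by
        intro u hu
        have hu0 : 0 < u := by linarith [hu.1]
        refine ⟨?_, hu0⟩
        have h2 : 0 < B u := mul_pos
          (Real.smoothTransition.pos_of_pos (by linarith [hu.1]))
          (Real.smoothTransition.pos_of_pos (by linarith [hu.2]))
        exact (mul_pos h2 (Real.rpow_pos_of_pos hu0 _)).ne'
      refine lt_of_lt_of_le ?_ (measure_mono h1)
      rw [Real.volume_Ioo]
      norm_num
    · refine (ae_restrict_iff' measurableSet_Ioi).2 (Filter.Eventually.of_forall fun u hu => ?_)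
      exact mul_nonneg (mul_nonneg (Real.smoothTransition.nonneg _)
        (Real.smoothTransition.nonneg _)) (Real.rpow_nonneg (le_of_lt hu) _)
  refine ⟨fun u => G0 u - I0 / I1 * B u, hG0s.sub (contDiff_const.mul hBs), ?_, ?_, ?_⟩
  · intro u hu
    rw [hB2 u (by linarith), mul_zero, sub_zero]
    exact Real.smoothTransition.one_of_one_le (by linarith)
  · intro u hu
    rw [hG03 u hu, hB3 u hu, mul_zero, sub_zero]
  · have h1 : ∀ u : ℝ, (G0 u - I0 / I1 * B u) * u ^ (-(1 / 2) : ℝ) =
        G0 u * u ^ (-(1 / 2) : ℝ) - I0 / I1 * (B u * u ^ (-(1 / 2) : ℝ)) := fun u => by ring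
    simp only [h1]
    rw [integral_sub i0 (i1.const_mul _), integral_const_mul, ← hI0, ← hI1]
    field_simp
    ring

end Pool.Agent.H89.HH
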